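import Pool.Agent.helper41.G5.Spec

/-! # DH5: row SY: symmetrisation -/

set_option autoImplicit false

namespace DH5

open Finset

section
variable {E Ω W : Type} [Fintype E] [DecidableEq E] [Fintype Ω] [Nonempty Ω] [NormedAddCommGroup W] [NormedSpace ℝ W]

/-- the marginal of the uniform distribution -/
theorem SY_marg (e : E) (x : Ω → W) : avE (fun ω : E → Ω => x (ω e)) = avE x := by
  classical
  unfold avE
  have h1 : ∑ ω : E → Ω, x (ω e) = ∑ o : Ω, ∑ ω : {ω : E → Ω // ω e = o}, x o := by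
    rw [← Fintype.sum_fiberwise (fun ω : E → Ω => ω e)]
    apply Finset.sum_congr rfl
    intro o _
    apply Finset.sum_congr rfl
    intro ω _
    rw [ω.2]
  have h2 : ∀ o : Ω, (Fintype.card {ω : E → Ω // ω e = o} : ℝ) * Fintype.card Ω = Fintype.card (E → Ω) := by
    intro o
    have h3 : Fintype.card ({ω : E → Ω // ω e = o} × Ω) = Fintype.card (E → Ω) := by
      apply Fintype.card_congr
      exact {
        toFun := fun p => Function.update p.1.1 e p.2
        invFun := fun ω => (⟨Function.update ω e o, by simp⟩, ω e)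
        left_inv := by
          rintro ⟨⟨ω, hω⟩, o'⟩
          apply Prod.ext
          · apply Subtype.ext
            simp only [Function.update_idem]
            rw [← hω, Function.update_eq_self]
          · simp
        right_inv := by
          intro ω
          simp }
    rw [Fintype.card_prod] at h3
    exact_mod_cast h3
  have hΩ : (Fintype.card Ω : ℝ) ≠ 0 := by
    exact_mod_cast Fintype.card_ne_zero
  have hN : (Fintype.card (E → Ω) : ℝ) ≠ 0 := by
    exact_mod_cast Fintype.card_ne_zero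
  rw [h1]
  simp only [Finset.sum_const, Finset.card_univ]
  rw [Finset.smul_sum, Finset.smul_sum]
  apply Finset.sum_congr rfl
  intro o _
  rw [← Nat.cast_smul_eq_nsmul ℝ, smul_smul]
  congr 1
  have := h2 o
  field_simp
  linarith

/-- Jensen for the norm -/
theorem SY_jen {A : Type} [Fintype A] [Nonempty A] (g : A → W) (p : ℕ) : ‖avE g‖ ^ p ≤ av (fun x => ‖g x‖ ^ p) := by
  have hA : (Fintype.card A : ℝ) ≠ 0 := by exact_mod_cast Fintype.card_ne_zero
  have hc : ConvexOn ℝ Set.univ (fun x : W => ‖x‖ ^ p) := (convexOn_norm convex_univ).pow (fun x _ => norm_nonneg x) p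
  have := hc.map_sum_le (t := Finset.univ) (w := fun _ : A => (Fintype.card A : ℝ)⁻¹) (p := g)
    (fun _ _ => by positivity) (by rw [Finset.sum_const, Finset.card_univ, nsmul_eq_mul]; field_simp) (fun _ _ => Set.mem_univ _)
  unfold avE av
  rw [Finset.smul_sum, Finset.mul_sum]
  simpa [smul_eq_mul] using this

omit [Nonempty Ω] in
/-- the swap -/
theorem SY_swap (X : E → Ω → W) (p : ℕ) (ε : E → Bool) :
    ∑ ω : E → Ω, ∑ ω' : E → Ω, ‖∑ e, (X e (ω e) - X e (ω' e))‖ ^ p =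
    ∑ ω : E → Ω, ∑ ω' : E → Ω, ‖∑ e, sg (ε e) • (X e (ω e) - X e (ω' e))‖ ^ p := by
  rw [← Fintype.sum_prod_type' (f := fun ω ω' : E → Ω => ‖∑ e, (X e (ω e) - X e (ω' e))‖ ^ p),
    ← Fintype.sum_prod_type' (f := fun ω ω' : E → Ω => ‖∑ e, sg (ε e) • (X e (ω e) - X e (ω' e))‖ ^ p)]
  let s : (E → Ω) × (E → Ω) → (E → Ω) × (E → Ω) := fun q => (fun e => if ε e then q.1 e else q.2 e, fun e => if ε e then q.2 e else q.1 e)
  have hs : Function.Involutive s := by
    rintro ⟨ω, ω'⟩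
    apply Prod.ext
    · funext e
      by_cases h : ε e <;> simp [s, h]
    · funext e
      by_cases h : ε e <;> simp [s, h]
  rw [← Equiv.sum_comp hs.toPerm]
  apply Finset.sum_congr rfl
  rintro ⟨ω, ω'⟩ _
  congr 2
  apply Finset.sum_congr rfl
  intro e _
  by_cases h : ε e
  · simp [Function.Involutive.toPerm, s, sg, h]
  · simp [Function.Involutive.toPerm, s, sg, h]

end

theorem SY : SY_stmt := by
  intro E Ω _ _ _ _ W _ _ X p hp
  set N : ℝ := (Fintype.card (E → Ω) : ℝ) with hN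
  set B : ℝ := (Fintype.card (E → Bool) : ℝ) with hB
  have hN0 : 0 < N := by
    rw [hN]
    exact_mod_cast Fintype.card_pos
  have hB0 : 0 < B := by
    rw [hB]
    exact_mod_cast Fintype.card_pos
  set Y : (E → Bool) → (E → Ω) → ℝ := fun ε ω => ‖∑ e, sg (ε e) • X e (ω e)‖ with hY
  -- Jensen
  have h1 : ∀ ω : E → Ω, ‖∑ e, (X e (ω e) - avE (X e))‖ ^ p ≤ N⁻¹ * ∑ ω' : E → Ω, ‖∑ e, (X e (ω e) - X e (ω' e))‖ ^ p := by
    intro ω
    have e1 : ∑ e, (X e (ω e) - avE (X e)) = avE (fun ω' : E → Ω => ∑ e, (X e (ω e) - X e (ω' e))) := by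
      have e2 : ∀ e, avE (X e) = avE (fun ω' : E → Ω => X e (ω' e)) := fun e => (SY_marg e (X e)).symm
      simp only [e2]
      unfold avE
      rw [Finset.sum_comm, Finset.smul_sum]
      apply Finset.sum_congr rfl
      intro e _
      rw [Finset.sum_sub_distrib, Finset.sum_const, Finset.card_univ, smul_sub, ← Nat.cast_smul_eq_nsmul ℝ, smul_smul, inv_mul_cancel₀ hN0.ne',
        one_smul]
    rw [e1]
    exact SY_jen _ p
  -- one sign pattern
  have h2 : ∀ ε : E → Bool, ∑ ω : E → Ω, ∑ ω' : E → Ω, ‖∑ e, (X e (ω e) - X e (ω' e))‖ ^ p ≤ 2 ^ p * N * ∑ ω : E → Ω, Y ε ω ^ p := by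
    intro ε
    rw [SY_swap X p ε]
    have h3 : ∀ ω ω' : E → Ω, ‖∑ e, sg (ε e) • (X e (ω e) - X e (ω' e))‖ ^ p ≤ 2 ^ (p - 1) * (Y ε ω ^ p + Y ε ω' ^ p) := by
      intro ω ω'
      have e1 : ∑ e, sg (ε e) • (X e (ω e) - X e (ω' e)) = (∑ e, sg (ε e) • X e (ω e)) - ∑ e, sg (ε e) • X e (ω' e) := by
        rw [← Finset.sum_sub_distrib]
        exact Finset.sum_congr rfl (fun e _ => smul_sub _ _ _)
      rw [e1]
      exact (pow_le_pow_left₀ (norm_nonneg _) (norm_sub_le _ _) p).trans (add_pow_le (norm_nonneg _) (norm_nonneg _) p)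
    calc ∑ ω : E → Ω, ∑ ω' : E → Ω, ‖∑ e, sg (ε e) • (X e (ω e) - X e (ω' e))‖ ^ p
        ≤ ∑ ω : E → Ω, ∑ ω' : E → Ω, 2 ^ (p - 1) * (Y ε ω ^ p + Y ε ω' ^ p) :=
          Finset.sum_le_sum (fun ω _ => Finset.sum_le_sum (fun ω' _ => h3 ω ω'))
      _ = 2 ^ p * N * ∑ ω : E → Ω, Y ε ω ^ p := by
          simp only [← Finset.mul_sum, Finset.sum_add_distrib, Finset.sum_const, Finset.card_univ, nsmul_eq_mul]
          have : (2 : ℝ) ^ p = 2 ^ (p - 1) * 2 := by
            rw [← pow_succ]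
            congr 1
            omega
          rw [this, ← hN]
          ring
  have h4 : B * ∑ ω : E → Ω, ∑ ω' : E → Ω, ‖∑ e, (X e (ω e) - X e (ω' e))‖ ^ p ≤ 2 ^ p * N * ∑ ω : E → Ω, ∑ ε : E → Bool, Y ε ω ^ p := by
    have := Finset.sum_le_sum (s := (Finset.univ : Finset (E → Bool))) (fun ε _ => h2 ε)
    rw [Finset.sum_const, Finset.card_univ, nsmul_eq_mul, ← Finset.mul_sum, Finset.sum_comm (s := (Finset.univ : Finset (E → Bool)))] at this
    exact this
  unfold av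
  show N⁻¹ * ∑ ω : E → Ω, ‖∑ e, (X e (ω e) - avE (X e))‖ ^ p ≤ 2 ^ p * (N⁻¹ * ∑ ω : E → Ω, (B⁻¹ * ∑ ε : E → Bool, Y ε ω ^ p))
  calc N⁻¹ * ∑ ω : E → Ω, ‖∑ e, (X e (ω e) - avE (X e))‖ ^ p
      ≤ N⁻¹ * ∑ ω : E → Ω, (N⁻¹ * ∑ ω' : E → Ω, ‖∑ e, (X e (ω e) - X e (ω' e))‖ ^ p) := by
        apply mul_le_mul_of_nonneg_left _ (by positivity)
        exact Finset.sum_le_sum (fun ω _ => h1 ω)
    _ = N⁻¹ * N⁻¹ * B⁻¹ * (B * ∑ ω : E → Ω, ∑ ω' : E → Ω, ‖∑ e, (X e (ω e) - X e (ω' e))‖ ^ p) := by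
        rw [← Finset.mul_sum]
        field_simp
    _ ≤ N⁻¹ * N⁻¹ * B⁻¹ * (2 ^ p * N * ∑ ω : E → Ω, ∑ ε : E → Bool, Y ε ω ^ p) := by
        apply mul_le_mul_of_nonneg_left h4 (by positivity)
    _ = 2 ^ p * (N⁻¹ * ∑ ω : E → Ω, (B⁻¹ * ∑ ε : E → Bool, Y ε ω ^ p)) := by
        rw [← Finset.mul_sum]
        field_simp

end DH5
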